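import Mathlib
import Pool.Agent.R38.DB.Gen

/-!
The lower bound for the complete intersections of divisors of type `(d, 1)` (adapted from
`Pool/Agent/H548/BK/BoxLow.lean` and `Low.lean`).
-/

set_option autoImplicit false

namespace Pool.Agent.R38.DB

open Finset Matrix
open Pool.Agent.H548.WM (ht bx mem_bx ht_le le_ht le_ht' exists_ht card_bx_le card_bx ht_pos Rep)
open Pool.Agent.H548.TL (evz evz_map evz_int deg_evz zerosQ many_gen root)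
open Pool.Agent.H548.BK (two two_map Zm Zm_map Zm_mulVec mul_Zm exists_minor' indep_of_det
  few_ker prim_low KP mem_KP KP_rep)

open Classical in
/-- Many `y` over a generic `x`. -/
theorem good_y {k n N : ℕ} (hk2 : k + 2 ≤ N)
    {F : Fin k → Fin N → MvPolynomial (Fin n) ℤ} (G : MvPolynomial (Fin n ⊕ Fin N) ℤ) :
    ∃ (c : ℝ) (E m : ℕ), 0 < c ∧ 1 ≤ E ∧
    ∀ (x : Fin n → ℤ) (J : Fin k → Fin N), ((LM F x).submatrix id J).det ≠ 0 →
      (∃ y0 : Fin N → ℤ, LM F x *ᵥ y0 = 0 ∧ evz G (two x y0) ≠ 0) →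
      ∀ W Y : ℕ, 1 ≤ W → (∀ i j, |LM F x i j| ≤ (W : ℤ)) → E * W ^ m ≤ Y →
        c * (Y : ℝ) ^ (N - k) ≤ (W : ℝ) ^ k * ((bx N Y).filter fun y => Rep y ∧ InV F G x y).card := by
  obtain ⟨c, E, m, hc, hE, h⟩ := prim_low (k := k) (N := N) hk2
  set κ : ℝ := G.totalDegree * 6 ^ (N - 1) with hκ
  have hκ0 : 0 ≤ κ := by positivity
  obtain ⟨E2, hE2⟩ := exists_nat_ge (4 * κ / c)
  refine ⟨c / 4, E + E2, m + k, by positivity, by omega, ?_⟩
  intro x J hΔ hz W Y hW hA hY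
  have hW' : (1 : ℝ) ≤ W := by exact_mod_cast hW
  have hWmk : W ^ m ≤ W ^ (m + k) := Nat.pow_le_pow_right hW (by omega)
  have hWk : W ^ k ≤ W ^ (m + k) := Nat.pow_le_pow_right hW (by omega)
  have hYE : E * W ^ m ≤ Y := by
    calc E * W ^ m ≤ (E + E2) * W ^ (m + k) := Nat.mul_le_mul (Nat.le_add_right _ _) hWmk
      _ ≤ Y := hY
  have hYE2 : E2 * W ^ k ≤ Y := by
    calc E2 * W ^ k ≤ (E + E2) * W ^ (m + k) := Nat.mul_le_mul (Nat.le_add_left _ _) hWk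
      _ ≤ Y := hY
  have hY1 : 1 ≤ Y := by
    refine le_trans ?_ hYE
    exact Nat.one_le_iff_ne_zero.2 (by positivity)
  have hY' : (1 : ℝ) ≤ Y := by exact_mod_cast hY1
  have hli := indep_of_det hΔ
  have h1 := h (LM F x) hli W Y hW hA hYE
  set F1 := (bx N Y).filter fun y => Rep y ∧ InV F G x y with hF
  set b2 := (bx N Y).filter fun y => LM F x *ᵥ y = 0 ∧ evz G (two x y) = 0 with hb2
  have hsub : (KP (LM F x) Y).filter Rep ⊆ F1 ∪ b2 := by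
    intro y hy
    rw [mem_filter, mem_KP] at hy
    obtain ⟨⟨hy1, hy2, hy3⟩, hy4⟩ := hy
    rw [mem_union, hF, hb2, mem_filter, mem_filter, mem_bx]
    by_cases e2 : evz G (two x y) = 0
    · exact Or.inr ⟨hy1, hy2, e2⟩
    · exact Or.inl ⟨hy1, hy4, LM_mulVec.1 hy2, hli, e2⟩
  have h2 := card_le_card hsub
  have h2' := card_union_le F1 b2
  have h3 := KP_rep (LM F x) Y
  have h5 := few_yG (by omega) G hΔ hz Y hY1
  rw [← hb2] at h5
  have h6 : (KP (LM F x) Y).card ≤ 2 * (F1.card + b2.card) := by omega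
  have h7 : ((KP (LM F x) Y).card : ℝ) ≤ 2 * (F1.card + b2.card) := by
    exact_mod_cast h6
  have h8 : c * (Y : ℝ) ^ (N - k) ≤ (W : ℝ) ^ k * (2 * (F1.card + b2.card)) :=
    h1.trans (by gcongr)
  have h9 : (W : ℝ) ^ k * (2 * b2.card) ≤ c / 2 * (Y : ℝ) ^ (N - k) := by
    have e1 : (Y : ℝ) ^ (N - k) = (Y : ℝ) ^ (N - k - 1) * Y := by
      rw [← pow_succ]
      congr 1
      omega
    have e2 : 4 * κ ≤ c * (E2 : ℝ) := by
      rw [div_le_iff₀ hc] at hE2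
      linarith
    have e3 : (E2 : ℝ) * (W : ℝ) ^ k ≤ Y := by exact_mod_cast hYE2
    calc (W : ℝ) ^ k * (2 * b2.card) ≤
          (W : ℝ) ^ k * (2 * (κ * (Y : ℝ) ^ (N - k - 1))) := by gcongr
      _ = (4 * κ) / 2 * ((W : ℝ) ^ k * (Y : ℝ) ^ (N - k - 1)) := by ring
      _ ≤ (c * (E2 : ℝ)) / 2 * ((W : ℝ) ^ k * (Y : ℝ) ^ (N - k - 1)) := by gcongr
      _ = c / 2 * ((Y : ℝ) ^ (N - k - 1) * (E2 * (W : ℝ) ^ k)) := by ring
      _ ≤ c / 2 * ((Y : ℝ) ^ (N - k - 1) * Y) := by gcongr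
      _ = c / 2 * (Y : ℝ) ^ (N - k) := by rw [e1]
  have h10 : (W : ℝ) ^ k * (2 * (F1.card + b2.card)) =
      2 * ((W : ℝ) ^ k * F1.card) + (W : ℝ) ^ k * (2 * b2.card) := by ring
  rw [h10] at h8
  linarith

open Classical in
/-- Many points in a dyadic box. -/
theorem box_low {k n N d : ℕ} (hn : 3 ≤ n) (hd : d * k + 1 ≤ n) (hk2 : k + 2 ≤ N)
    {F : Fin k → Fin N → MvPolynomial (Fin n) ℤ} (hFd : ∀ i j, (F i j).IsHomogeneous d)
    {G : MvPolynomial (Fin n ⊕ Fin N) ℤ} (hG : ∃ (x : Fin n → ℂ) (y : Fin N → ℂ), InV F G x y) :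
    ∃ (c : ℝ) (K E m : ℕ), 0 < c ∧ 1 ≤ E ∧ ∀ X Y : ℕ, K ≤ X → E * X ^ m ≤ Y →
      ∃ P : Finset ((Fin n → ℤ) × (Fin N → ℤ)),
        (∀ t ∈ P, Rep t.1 ∧ Rep t.2 ∧ InV F G t.1 t.2 ∧
          ht t.1 ≤ X ∧ X < 2 * ht t.1 ∧ ht t.2 ≤ Y) ∧
        c * ((X : ℝ) ^ (n - d * k) * (Y : ℝ) ^ (N - k)) ≤ P.card := by
  obtain ⟨f, J, hf0, hfx⟩ := gen hG
  obtain ⟨cx, Kx, hcx, hx⟩ := many_gen hn hf0
  obtain ⟨cy, Ey, m, hcy, hEy, hy⟩ := good_y (F := F) hk2 G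
  set C0 := siz F with hC0
  have hC01 : 1 ≤ C0 := by
    rw [hC0]
    unfold siz
    omega
  have hC0' : (0 : ℝ) < C0 := by exact_mod_cast hC01
  refine ⟨cx * cy / C0 ^ k, Kx + 1, Ey * C0 ^ m, d * m, by positivity,
    Nat.one_le_iff_ne_zero.2 (by positivity), ?_⟩
  intro X Y hX hY
  obtain ⟨SX, hSX, hSXc⟩ := hx X (by omega)
  have hX1 : 1 ≤ X := by omega
  have hX' : (0 : ℝ) < X := by exact_mod_cast hX1
  set F1 : (Fin n → ℤ) → Finset (Fin N → ℤ) := fun x =>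
    (bx N Y).filter fun y => Rep y ∧ InV F G x y with hF
  set P := (SX ×ˢ (bx N Y)).filter fun t => Rep t.2 ∧ InV F G t.1 t.2 with hP
  refine ⟨P, ?_, ?_⟩
  · intro t ht'
    rw [hP, mem_filter, mem_product, mem_bx] at ht'
    obtain ⟨⟨a1, a2⟩, a3, a4⟩ := ht'
    obtain ⟨b1, b2, b3, -⟩ := hSX _ a1
    exact ⟨b1, a3, a4, b2, b3, a2⟩
  · have hcard : P.card = ∑ x ∈ SX, (F1 x).card := by
      rw [hP, card_filter, sum_product]
      refine Finset.sum_congr rfl fun x _ => ?_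
      rw [hF, card_filter]
    set V : ℝ := cy * (Y : ℝ) ^ (N - k) / (C0 * (X : ℝ) ^ d) ^ k with hV
    have hfib : ∀ x ∈ SX, V ≤ ((F1 x).card : ℝ) := by
      intro x hx
      obtain ⟨-, b2, -, b4⟩ := hSX x hx
      obtain ⟨hΔ, hz⟩ := hfx x b4
      have h4 := hy x J hΔ hz (C0 * X ^ d) Y (Nat.one_le_iff_ne_zero.2 (by positivity))
        (LM_le hFd b2) (by
        calc Ey * (C0 * X ^ d) ^ m = Ey * C0 ^ m * X ^ (d * m) := by rw [mul_pow, ← pow_mul]; ring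
          _ ≤ Y := hY)
      rw [hV, div_le_iff₀ (by positivity)]
      push_cast at h4
      calc cy * (Y : ℝ) ^ (N - k) ≤ _ := h4
        _ = _ := by
          rw [hF]
          ring
    calc cx * cy / C0 ^ k * ((X : ℝ) ^ (n - d * k) * (Y : ℝ) ^ (N - k)) =
          (cx * (X : ℝ) ^ n) * V := by
          have e1 : (X : ℝ) ^ n = (X : ℝ) ^ (n - d * k) * (X : ℝ) ^ (d * k) := by
            rw [← pow_add]
            congr 1
            omega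
          rw [hV, e1, mul_pow, ← pow_mul]
          field_simp
      _ ≤ (SX.card : ℝ) * V := by gcongr
      _ = ∑ x ∈ SX, V := by rw [Finset.sum_const, nsmul_eq_mul]
      _ ≤ ∑ x ∈ SX, ((F1 x).card : ℝ) := Finset.sum_le_sum hfib
      _ = (P.card : ℝ) := by rw [hcard]; push_cast; rfl

/-- The lower bound for integral heights. -/
theorem lower_nat {k n N d : ℕ} (hn : 3 ≤ n) (hd : d * k + 1 ≤ n) (hk2 : k + 2 ≤ N)
    {F : Fin k → Fin N → MvPolynomial (Fin n) ℤ} (hFd : ∀ i j, (F i j).IsHomogeneous d)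
    {G : MvPolynomial (Fin n ⊕ Fin N) ℤ} (hG : ∃ (x : Fin n → ℂ) (y : Fin N → ℂ), InV F G x y) :
    ∃ (c : ℝ) (L₀ : ℕ), 0 < c ∧ 1 ≤ L₀ ∧ ∀ B : ℕ, L₀ ≤ Nat.log 2 B →
    ∃ P : Finset ((Fin n → ℤ) × (Fin N → ℤ)),
      (∀ t ∈ P, Rep t.1 ∧ Rep t.2 ∧ InV F G t.1 t.2 ∧
        (ht t.1 : ℝ) ^ (n - d * k) * (ht t.2 : ℝ) ^ (N - k) ≤ B) ∧
      c * (B * (Nat.log 2 B : ℝ)) ≤ P.card := by
  classical
  obtain ⟨c, K, E, m, hc, hE, h⟩ := box_low hn hd hk2 hFd hG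
  set a := n - d * k with ha
  set e := N - k with he
  have he1 : 1 ≤ e := by omega
  have ha1 : 1 ≤ a := by omega
  set s := m * e + a with hsdef
  set Q := 2 * s with hQ
  have hQ0 : 0 < Q := by omega
  have hQ' : (0 : ℝ) < Q := by exact_mod_cast hQ0
  refine ⟨c / 2 ^ e / (2 * Q), 2 * Q * K + 2 * E ^ e + 1, by positivity, by omega, ?_⟩
  intro B hB
  set L := Nat.log 2 B with hL
  have hB0 : B ≠ 0 := by
    rintro rfl
    simp at hL
    omega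
  have hLB : 2 ^ L ≤ B := Nat.pow_log_le_self 2 hB0
  have hB0' : (0 : ℝ) < B := by exact_mod_cast Nat.pos_of_ne_zero hB0
  set J := Finset.Icc K (L / Q) with hJ
  -- the scales
  have hZ : ∀ i ∈ J, ∃ Z : ℕ, E * (2 ^ i) ^ m ≤ Z ∧
      ((2 ^ i : ℕ) : ℝ) ^ a * (Z : ℝ) ^ e ≤ B ∧
      (B : ℝ) / 2 ^ e ≤ ((2 ^ i : ℕ) : ℝ) ^ a * (Z : ℝ) ^ e := by
    intro i hi
    rw [hJ, mem_Icc] at hi
    set D : ℝ := ((2 ^ i : ℕ) : ℝ) ^ a with hD
    have hD0 : 0 < D := by positivity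
    have hnat : (E * (2 ^ i) ^ m) ^ e * (2 ^ i) ^ a ≤ B := by
      have k1 : E ^ e ≤ 2 ^ (L / 2) := by
        calc E ^ e ≤ 2 ^ (E ^ e) := Nat.lt_two_pow_self.le
          _ ≤ 2 ^ (L / 2) := Nat.pow_le_pow_right (by norm_num) (by omega)
      have k2 : (2 : ℕ) ^ (s * i) ≤ 2 ^ (L / 2) := by
        apply Nat.pow_le_pow_right (by norm_num)
        have e1 : s * i ≤ s * (L / Q) := Nat.mul_le_mul_left _ hi.2
        have e4 : s * (L / Q) * 2 ≤ L := by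
          calc s * (L / Q) * 2 = Q * (L / Q) := by rw [hQ]; ring
            _ ≤ L := Nat.mul_div_le L Q
        omega
      calc (E * (2 ^ i) ^ m) ^ e * (2 ^ i) ^ a = E ^ e * 2 ^ (s * i) := by
            rw [mul_pow, ← pow_mul, ← pow_mul, ← pow_mul, mul_assoc, ← pow_add, hsdef]
            ring_nf
        _ ≤ 2 ^ (L / 2) * 2 ^ (L / 2) := Nat.mul_le_mul k1 k2
        _ = 2 ^ (L / 2 + L / 2) := by rw [pow_add]
        _ ≤ 2 ^ L := Nat.pow_le_pow_right (by norm_num) (by omega)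
        _ ≤ B := hLB
    have hq : ((E * (2 ^ i) ^ m : ℕ) : ℝ) ^ e ≤ B / D := by
      rw [le_div_iff₀ hD0, hD]
      exact_mod_cast hnat
    obtain ⟨Z, hZ1, hZ2, hZ3⟩ := root (B / D) e _ he1
      (Nat.one_le_iff_ne_zero.2 (by positivity)) hq
    refine ⟨Z, hZ1, ?_, ?_⟩
    · rw [le_div_iff₀ hD0] at hZ2
      linarith
    · rw [div_le_iff₀ hD0] at hZ3
      rw [div_le_iff₀ (by positivity)]
      linarith
  have hKj : ∀ j ∈ J, K ≤ 2 ^ j := by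
    intro j hj
    rw [hJ, mem_Icc] at hj
    exact (hj.1.trans (Nat.lt_two_pow_self).le)
  have hPx : ∀ i ∈ J, ∃ P : Finset ((Fin n → ℤ) × (Fin N → ℤ)),
      (∀ t ∈ P, Rep t.1 ∧ Rep t.2 ∧ InV F G t.1 t.2 ∧
        (ht t.1 : ℝ) ^ a * (ht t.2 : ℝ) ^ e ≤ B ∧
        ht t.1 ≤ 2 ^ i ∧ 2 ^ i < 2 * ht t.1) ∧
      c / 2 ^ e * B ≤ P.card := by
    intro i hi
    obtain ⟨Z, hZ1, hZ2, hZ3⟩ := hZ i hi
    obtain ⟨P, hP, hPc⟩ := h (2 ^ i) Z (hKj i hi) hZ1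
    refine ⟨P, ?_, ?_⟩
    · intro t ht'
      obtain ⟨a1, a2, a3, a4, a5, a6⟩ := hP t ht'
      refine ⟨a1, a2, a3, ?_, a4, a5⟩
      refine le_trans ?_ hZ2
      have b1 : (ht t.1 : ℝ) ≤ ((2 ^ i : ℕ) : ℝ) := by exact_mod_cast a4
      have b3 : (ht t.2 : ℝ) ≤ (Z : ℝ) := by exact_mod_cast a6
      gcongr
    · refine le_trans ?_ hPc
      calc c / 2 ^ e * B = c * (B / 2 ^ e) := by ring
        _ ≤ _ := by gcongr
  choose! Pj hPj hPc using hPx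
  set P := J.biUnion Pj with hP
  refine ⟨P, ?_, ?_⟩
  · intro t ht'
    rw [hP, mem_biUnion] at ht'
    obtain ⟨p, hp, htp⟩ := ht'
    obtain ⟨a1, a2, a3, a4, -⟩ := hPj p hp t htp
    exact ⟨a1, a2, a3, a4⟩
  · have huniq : ∀ (i i' n : ℕ), n ≤ 2 ^ i → 2 ^ i < 2 * n → n ≤ 2 ^ i' → 2 ^ i' < 2 * n →
        i = i' := by
      have key : ∀ (i i' n : ℕ), n ≤ 2 ^ i → 2 ^ i' < 2 * n → ¬ i < i' := by
        intro i i' n e1 e2 hlt
        have h8 : 2 ^ (i + 1) ≤ 2 ^ i' := Nat.pow_le_pow_right (by norm_num) hlt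
        rw [pow_succ] at h8
        omega
      intro i i' n e1 e2 e3 e4
      have k1 := key i i' n e1 e4
      have k2 := key i' i n e3 e2
      omega
    have hdisj : ∀ p ∈ J, ∀ p' ∈ J, p ≠ p' → Disjoint (Pj p) (Pj p') := by
      intro p hp p' hp' hne
      rw [Finset.disjoint_left]
      intro t ht1 ht2
      obtain ⟨-, -, -, -, c1, c2⟩ := hPj p hp t ht1
      obtain ⟨-, -, -, -, d1, d2⟩ := hPj p' hp' t ht2
      exact hne (huniq _ _ _ c1 c2 d1 d2)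
    have hcard : P.card = ∑ p ∈ J, (Pj p).card := by
      rw [hP, Finset.card_biUnion hdisj]
    have hJc : (L : ℝ) / (2 * Q) ≤ (J.card : ℝ) := by
      rw [hJ, Nat.card_Icc, div_le_iff₀ (by positivity)]
      have e1 : L < Q * (L / Q + 1) := Nat.lt_mul_div_succ L hQ0
      have e2 : 2 * Q * K ≤ L := by omega
      set u := L / Q with hu
      have e3 : K ≤ u + 1 := by
        by_contra hcon
        push Not at hcon
        have : Q * (u + 1) ≤ Q * K := Nat.mul_le_mul_left _ hcon.le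
        have e5 : 2 * Q * K = Q * K + Q * K := by ring
        omega
      rw [Nat.cast_sub e3]
      have e1' : (L : ℝ) < Q * (u + 1) := by exact_mod_cast e1
      have e2' : 2 * (Q : ℝ) * K ≤ L := by exact_mod_cast e2
      push_cast
      nlinarith
    calc c / 2 ^ e / (2 * Q) * (B * (L : ℝ)) = (L : ℝ) / (2 * Q) * (c / 2 ^ e * B) := by
          field_simp
      _ ≤ (J.card : ℝ) * (c / 2 ^ e * B) := by gcongr
      _ = ∑ p ∈ J, c / 2 ^ e * (B : ℝ) := by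
          rw [Finset.sum_const, nsmul_eq_mul]
      _ ≤ ∑ p ∈ J, ((Pj p).card : ℝ) := Finset.sum_le_sum hPc
      _ = (P.card : ℝ) := by rw [hcard]; push_cast; rfl

/-- The lower bound. -/
theorem lower {k n N d : ℕ} (hn : 3 ≤ n) (hd : d * k + 1 ≤ n) (hk2 : k + 2 ≤ N)
    {F : Fin k → Fin N → MvPolynomial (Fin n) ℤ} (hFd : ∀ i j, (F i j).IsHomogeneous d)
    {G : MvPolynomial (Fin n ⊕ Fin N) ℤ} (hG : ∃ (x : Fin n → ℂ) (y : Fin N → ℂ), InV F G x y) :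
    ∃ c X₀ : ℝ, 0 < c ∧ 1 ≤ X₀ ∧ ∀ X : ℝ, X₀ ≤ X →
    ∃ P : Finset ((Fin n → ℤ) × (Fin N → ℤ)),
      (∀ t ∈ P, Rep t.1 ∧ Rep t.2 ∧ InV F G t.1 t.2 ∧
        (ht t.1 : ℝ) ^ (n - d * k) * (ht t.2 : ℝ) ^ (N - k) ≤ X) ∧
      c * (X * Real.log X) ≤ P.card := by
  obtain ⟨c, L₀, hc, hL1, h⟩ := lower_nat hn hd hk2 hFd hG
  refine ⟨c / 4, 2 ^ L₀ + 1, by positivity, by
    have : (0 : ℝ) < 2 ^ L₀ := by positivity
    linarith, ?_⟩
  intro X hX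
  have hp : (1 : ℝ) ≤ 2 ^ L₀ := one_le_pow₀ (by norm_num)
  have hX1 : 1 ≤ X := by linarith
  set B := ⌊X⌋₊ with hB
  have hBX : (B : ℝ) ≤ X := Nat.floor_le (by linarith)
  have hXB : X < B + 1 := Nat.lt_floor_add_one X
  have hB1 : 2 ^ L₀ ≤ B := by
    apply Nat.le_floor
    push_cast
    linarith
  have hB0 : B ≠ 0 := by
    have : 0 < 2 ^ L₀ := by positivity
    omega
  have hLL : L₀ ≤ Nat.log 2 B := Nat.le_log_of_pow_le (by norm_num) hB1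
  obtain ⟨P, hP, hPc⟩ := h B hLL
  refine ⟨P, ?_, ?_⟩
  · intro t ht'
    obtain ⟨a1, a2, a3, a5⟩ := hP t ht'
    exact ⟨a1, a2, a3, a5.trans hBX⟩
  · refine le_trans ?_ hPc
    set L := Nat.log 2 B with hL
    have hL1' : (1 : ℝ) ≤ L := by exact_mod_cast hL1.trans hLL
    have h4 : B + 1 ≤ 2 ^ (L + 1) := Nat.lt_pow_succ_log_self (by norm_num) B
    have h5 : X ≤ (2 : ℝ) ^ (L + 1) := by
      have : ((B : ℝ) + 1) ≤ (2 : ℝ) ^ (L + 1) := by exact_mod_cast h4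
      linarith
    have h6 : Real.log X ≤ 2 * L := by
      calc Real.log X ≤ Real.log ((2 : ℝ) ^ (L + 1)) := Real.log_le_log (by linarith) h5
        _ = ((L + 1 : ℕ) : ℝ) * Real.log 2 := by rw [Real.log_pow]
        _ ≤ ((L + 1 : ℕ) : ℝ) * 1 := by
            gcongr
            have := Real.log_two_lt_d9
            linarith
        _ ≤ 2 * L := by
            push_cast
            linarith
    have h7 : 0 ≤ Real.log X := Real.log_nonneg hX1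
    have hB1' : (1 : ℝ) ≤ B := by exact_mod_cast Nat.one_le_iff_ne_zero.2 hB0
    have h9 : X ≤ 2 * B := by linarith
    calc c / 4 * (X * Real.log X) ≤ c / 4 * ((2 * B) * (2 * (L : ℝ))) := by gcongr
      _ = c * (B * (L : ℝ)) := by ring

/-- The rational points at which the `k` forms are independent outside of the hypersurface `G = 0`
of anticanonical height at most `B`. -/
def Pts {k n N : ℕ} (d : ℕ) (F : Fin k → Fin N → MvPolynomial (Fin n) ℤ)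
    (G : MvPolynomial (Fin n ⊕ Fin N) ℤ) (B : ℝ) : Set ((Fin n → ℤ) × (Fin N → ℤ)) :=
  {t | Rep t.1 ∧ Rep t.2 ∧ InV F G t.1 t.2 ∧
    (ht t.1 : ℝ) ^ (n - d * k) * (ht t.2 : ℝ) ^ (N - k) ≤ B}

theorem finite_pts {k n N d : ℕ} (hd : d * k + 1 ≤ n) (hkN : k + 1 ≤ N)
    (F : Fin k → Fin N → MvPolynomial (Fin n) ℤ)
    (G : MvPolynomial (Fin n ⊕ Fin N) ℤ) (B : ℝ) : (Pts d F G B).Finite := by
  apply (((bx n ⌊B⌋₊) ×ˢ (bx N ⌊B⌋₊)).finite_toSet).subset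
  rintro t ⟨a1, a2, -, a3⟩
  have n0 : (1 : ℝ) ≤ ht t.1 := by exact_mod_cast ht_pos (Pool.Agent.H548.BL.rep_ne a1)
  have n1 : (1 : ℝ) ≤ ht t.2 := by exact_mod_cast ht_pos (Pool.Agent.H548.BL.rep_ne a2)
  have m0 : (ht t.1 : ℝ) ≤ (ht t.1 : ℝ) ^ (n - d * k) := le_self_pow₀ n0 (by omega)
  have m1 : (ht t.2 : ℝ) ≤ (ht t.2 : ℝ) ^ (N - k) := le_self_pow₀ n1 (by omega)
  rw [mem_coe, mem_product, mem_bx, mem_bx]
  constructor
  · apply Nat.le_floor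
    nlinarith
  · apply Nat.le_floor
    nlinarith

theorem low {k n N d : ℕ} (hn : 3 ≤ n) (hd : d * k + 1 ≤ n) (hk2 : k + 2 ≤ N)
    {F : Fin k → Fin N → MvPolynomial (Fin n) ℤ} (hFd : ∀ i j, (F i j).IsHomogeneous d)
    {G : MvPolynomial (Fin n ⊕ Fin N) ℤ} (hG : ∃ (x : Fin n → ℂ) (y : Fin N → ℂ), InV F G x y) :
    ∃ c B₀ : ℝ, 0 < c ∧ ∀ B : ℝ, B₀ ≤ B → c * B * Real.log B ≤ ((Pts d F G B).ncard : ℝ) := by
  obtain ⟨c, B₀, hc, hB₀, h⟩ := lower hn hd hk2 hFd hG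
  refine ⟨c, B₀, hc, fun B hB => ?_⟩
  obtain ⟨P, hP, hPc⟩ := h B hB
  have h4 : (↑P : Set _) ⊆ Pts d F G B := by
    intro t ht'
    exact hP t ht'
  have h5 := Set.ncard_le_ncard h4 (finite_pts hd (by omega) F G B)
  rw [Set.ncard_coe_finset] at h5
  calc c * B * Real.log B = c * (B * Real.log B) := by ring
    _ ≤ (P.card : ℝ) := hPc
    _ ≤ ((Pts d F G B).ncard : ℝ) := by exact_mod_cast h5

end Pool.Agent.R38.DB
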