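import Mathlib
import Pool.Agent.R38.DB.Low
import Pool.Agent.R38.NC.Tri
import Pool.Agent.R38.NC.Bas2
import Pool.Agent.R38.NC.Par
import Pool.Agent.R38.NC.Dvd
import Pool.Agent.R38.NC.Coni
import Pool.Agent.R38.NC.Sum
import Pool.Agent.R38.NC.Nst
import Pool.Agent.R38.NC.Lat
import Pool.Agent.R38.NC.Geo
import Pool.Agent.R38.NC.Box
import Pool.Agent.R38.NC.Hts

/-!
Both bounds for the anticanonical height of the nets of conics.
-/

set_option autoImplicit false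

namespace Pool.Agent.R38.DB

open Finset Matrix
open Pool.Agent.H548.WM (ht bx mem_bx ht_pos Rep)
open Pool.Agent.H548.TL (evz evz_map evz_int)
open Pool.Agent.H548.BK (two two_map evz_mul)
open Pool.Agent.R38.NC
open Pool.Agent.R38.NC.Lat (fp fp_hom)

/-- The points of the net over smooth conics at which a polynomial does not vanish. -/
def InW {R : Type*} [CommRing R] (M : Fin 3 → Matrix (Fin 3) (Fin 3) ℤ)
    (G : MvPolynomial (Fin 3 ⊕ Fin 3) ℤ) (t x : Fin 3 → R) : Prop :=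
  qf (gm M t) x = 0 ∧ (gm M t).det ≠ 0 ∧ evz G (two t x) ≠ 0

/-- The rational points of bounded anticanonical height. -/
def PtsN (M : Fin 3 → Matrix (Fin 3) (Fin 3) ℤ) (G : MvPolynomial (Fin 3 ⊕ Fin 3) ℤ) (B : ℝ) :
    Set ((Fin 3 → ℤ) × (Fin 3 → ℤ)) :=
  {z | Rep z.1 ∧ Rep z.2 ∧ InW M G z.1 z.2 ∧ (ht z.1 : ℝ) ^ 2 * (ht z.2 : ℝ) ≤ B}

theorem bpf {M : Fin 3 → Matrix (Fin 3) (Fin 3) ℤ} (hS : Smooth M) (x : Fin 3 → ℂ) (hx : x ≠ 0) :
    ∃ i, cq M x i ≠ 0 := by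
  by_contra hc
  push Not at hc
  set B : Matrix (Fin 3) (Fin 3) ℂ := fun j i => ∑ k, (M i j k : ℂ) * x k with hB
  have hv : x ᵥ* B = 0 := by
    funext i
    have := hc i
    change (x ᵥ* B) i = (0 : ℂ)
    rw [← this]
    simp only [Matrix.vecMul, dotProduct, hB, cq, qf, Matrix.mulVec, Matrix.map_apply]
    refine Finset.sum_congr rfl fun j _ => ?_
    rfl
  have hdet : B.det = 0 := Matrix.exists_vecMul_eq_zero_iff.1 ⟨x, hx, hv⟩
  obtain ⟨t, ht, htB⟩ := Matrix.exists_mulVec_eq_zero_iff.2 hdet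
  have hz : (gm M t).mulVec x = 0 := by
    rw [← htB]
    funext j
    simp only [Matrix.mulVec, dotProduct, hB, gm, Finset.sum_mul]
    rw [Finset.sum_comm]
    refine Finset.sum_congr rfl fun i _ => ?_
    refine Finset.sum_congr rfl fun k _ => ?_
    ring
  have hq : qf (gm M t) x = 0 := by
    unfold qf
    rw [hz, dotProduct_zero]
  rcases hS t x ht hx hq with ⟨i, hi⟩ | ⟨j, hj⟩
  · exact hi (hc i)
  · exact hj (by rw [hz]; rfl)

theorem evz_fp {R : Type*} [CommRing R] (M : Fin 3 → Matrix (Fin 3) (Fin 3) ℤ) (i : Fin 3)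
    (x : Fin 3 → R) : evz (fp M i) x = cq M x i := by
  have h : evz (fp M i) x = MvPolynomial.eval₂Hom (Int.castRingHom R) x (fp M i) := rfl
  rw [h]
  simp only [fp, map_sum, map_mul, MvPolynomial.eval₂Hom_C, MvPolynomial.eval₂Hom_X']
  simp only [cq, qf, dotProduct, mulVec, Matrix.map_apply, Finset.mul_sum]
  apply Finset.sum_congr rfl
  intro j _
  apply Finset.sum_congr rfl
  intro k _
  ring

theorem qf_gm' {R : Type*} [CommRing R] (M : Fin 3 → Matrix (Fin 3) (Fin 3) ℤ) (t x : Fin 3 → R) :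
    qf (gm M t) x = ∑ j, cq M x j * t j := by
  simp only [qf, gm, cq, dotProduct, mulVec, Fin.sum_univ_three, Matrix.map_apply, eq_intCast]
  ring

/-- The determinant as a polynomial. -/
noncomputable def dp (M : Fin 3 → Matrix (Fin 3) (Fin 3) ℤ) : MvPolynomial (Fin 3 ⊕ Fin 3) ℤ :=
  (gm M (fun i => MvPolynomial.X (Sum.inl i))).det

theorem evz_dp {R : Type*} [CommRing R] (M : Fin 3 → Matrix (Fin 3) (Fin 3) ℤ) (t x : Fin 3 → R) :
    evz (dp M) (two t x) = (gm M t).det := by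
  set φ := MvPolynomial.eval₂Hom (Int.castRingHom R) (two t x) with hφ
  have h1 : evz (dp M) (two t x) = φ (dp M) := rfl
  have e1 : ∀ v, φ (MvPolynomial.X v) = two t x v := fun v => MvPolynomial.eval₂Hom_X' _ _ _
  rw [h1]
  unfold dp
  rw [RingHom.map_det]
  congr 1
  ext j k
  show φ (∑ i, MvPolynomial.X (Sum.inl i) * ((M i j k : ℤ) : MvPolynomial (Fin 3 ⊕ Fin 3) ℤ)) =
    ∑ i, t i * (M i j k : R)
  rw [map_sum]
  refine Finset.sum_congr rfl fun i _ => ?_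
  rw [map_mul, map_intCast, e1]
  rfl

/-- The polynomial in the other order, multiplied by the determinant. -/
noncomputable def sw (M : Fin 3 → Matrix (Fin 3) (Fin 3) ℤ) (G : MvPolynomial (Fin 3 ⊕ Fin 3) ℤ) :
    MvPolynomial (Fin 3 ⊕ Fin 3) ℤ := MvPolynomial.rename Sum.swap (G * dp M)

theorem evz_sw {R : Type*} [CommRing R] (M : Fin 3 → Matrix (Fin 3) (Fin 3) ℤ)
    (G : MvPolynomial (Fin 3 ⊕ Fin 3) ℤ) (t x : Fin 3 → R) :
    evz (sw M G) (two x t) = evz G (two t x) * (gm M t).det := by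
  rw [← evz_dp M t x, ← evz_mul]
  unfold sw evz
  rw [MvPolynomial.eval₂_rename]
  congr 1
  funext i
  rcases i with i | i <;> rfl

/-- The coefficients of the linear form in `t`. -/
noncomputable def FF (M : Fin 3 → Matrix (Fin 3) (Fin 3) ℤ) :
    Fin 1 → Fin 3 → MvPolynomial (Fin 3) ℤ := fun _ j => fp M j

theorem inV_of {M : Fin 3 → Matrix (Fin 3) (Fin 3) ℤ} (hS : Smooth M)
    {G : MvPolynomial (Fin 3 ⊕ Fin 3) ℤ} {t x : Fin 3 → ℂ} (hx : x ≠ 0) (h : InW M G t x) :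
    InV (FF M) (sw M G) x t := by
  obtain ⟨h1, h2, h3⟩ := h
  refine ⟨fun i => ?_, ?_, ?_⟩
  · rw [qf_gm'] at h1
    rw [← h1]
    refine Finset.sum_congr rfl fun j _ => ?_
    rw [← evz_fp]
    rfl
  · rw [linearIndependent_unique_iff]
    obtain ⟨i, hi⟩ := bpf hS x hx
    intro h0
    apply hi
    have := congrFun h0 i
    rw [← evz_fp]
    exact this
  · rw [evz_sw]
    exact mul_ne_zero h3 h2

theorem inW_of {M : Fin 3 → Matrix (Fin 3) (Fin 3) ℤ}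
    {G : MvPolynomial (Fin 3 ⊕ Fin 3) ℤ} {t x : Fin 3 → ℤ} (h : InV (FF M) (sw M G) x t) :
    InW M G t x := by
  obtain ⟨h1, -, h3⟩ := h
  rw [evz_sw] at h3
  refine ⟨?_, right_ne_zero_of_mul h3, left_ne_zero_of_mul h3⟩
  rw [qf_gm', ← h1 0]
  refine Finset.sum_congr rfl fun j _ => ?_
  rw [← evz_fp]
  rfl

theorem finite_ptsN (M : Fin 3 → Matrix (Fin 3) (Fin 3) ℤ)
    (G : MvPolynomial (Fin 3 ⊕ Fin 3) ℤ) (B : ℝ) : (PtsN M G B).Finite := by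
  apply (((bx 3 ⌊B⌋₊) ×ˢ (bx 3 ⌊B⌋₊)).finite_toSet).subset
  rintro t ⟨a1, a2, -, a3⟩
  have n0 : (1 : ℝ) ≤ ht t.1 := by exact_mod_cast ht_pos (Pool.Agent.H548.BL.rep_ne a1)
  have n1 : (1 : ℝ) ≤ ht t.2 := by exact_mod_cast ht_pos (Pool.Agent.H548.BL.rep_ne a2)
  have m0 : (ht t.1 : ℝ) ≤ (ht t.1 : ℝ) ^ 2 := le_self_pow₀ n0 (by norm_num)
  rw [mem_coe, mem_product, mem_bx, mem_bx]
  constructor
  · apply Nat.le_floor
    nlinarith
  · apply Nat.le_floor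
    nlinarith

theorem lowN {M : Fin 3 → Matrix (Fin 3) (Fin 3) ℤ} (hS : Smooth M)
    {G : MvPolynomial (Fin 3 ⊕ Fin 3) ℤ} (hG : ∃ t x : Fin 3 → ℂ, x ≠ 0 ∧ InW M G t x) :
    ∃ c B₀ : ℝ, 0 < c ∧ ∀ B : ℝ, B₀ ≤ B → c * B * Real.log B ≤ ((PtsN M G B).ncard : ℝ) := by
  obtain ⟨t, x, hx, h⟩ := hG
  obtain ⟨c, B₀, hc, h1⟩ := low (k := 1) (n := 3) (N := 3) (d := 2) (F := FF M) (G := sw M G)
    (by norm_num) (by norm_num) (by norm_num) (fun _ j => fp_hom M j) ⟨x, t, inV_of hS hx h⟩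
  refine ⟨c, B₀, hc, fun B hB => (h1 B hB).trans ?_⟩
  have h2 : (Pts 2 (FF M) (sw M G) B).ncard ≤ (PtsN M G B).ncard := by
    refine Set.ncard_le_ncard_of_injOn Prod.swap ?_ Prod.swap_injective.injOn
      (finite_ptsN M G B)
    rintro ⟨u, v⟩ ⟨a1, a2, a3, a4⟩
    refine ⟨a2, a1, inW_of a3, ?_⟩
    have e1 : (3 - 2 * 1 : ℕ) = 1 := rfl
    have e2 : (3 - 1 : ℕ) = 2 := rfl
    rw [e1, e2, pow_one] at a4
    show (ht v : ℝ) ^ 2 * (ht u : ℝ) ≤ B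
    rw [mul_comm]
    exact a4
  exact_mod_cast h2

theorem upN {M : Fin 3 → Matrix (Fin 3) (Fin 3) ℤ} (hM : ∀ i, (M i).IsSymm) (hs : Smooth M)
    (hd : NoDouble M) (G : MvPolynomial (Fin 3 ⊕ Fin 3) ℤ) (ε : ℝ) (hε : 0 < ε) :
    ∃ C : ℝ, ∀ B : ℝ, 1 ≤ B → ((PtsN M G B).ncard : ℝ) ≤ C * B ^ (1 + ε) := by
  obtain ⟨h1, h2, -⟩ := geo_ M hM hs hd
  set l : Fin 2 → ℝ := ![2, 1] with hl
  have hl0 : ∀ i, 0 < l i := by
    intro i
    fin_cases i
    · show (0 : ℝ) < 2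
      norm_num
    · show (0 : ℝ) < 1
      norm_num
  have hf1 : fuj l = 1 := by
    rw [fuj_eq l hl0]
    show max ((2 : ℝ) / 2) (1 / 1) = 1
    norm_num
  obtain ⟨C, hC⟩ := upper M (box_ (con_ tri_ bas2_ par_ dvd_) sum_ nst_ (lat_ tri_ nst_) M hM h1
    hd h2) l hl0 ε hε
  rw [hf1] at hC
  refine ⟨C, fun B hB => ?_⟩
  refine le_trans ?_ (hC B hB).2
  have hsub : PtsN M G B ⊆ {t : (Fin 3 → ℤ) × (Fin 3 → ℤ) | Rep t.1 ∧ Rep t.2 ∧
      qf (gm M t.1) t.2 = 0 ∧ (gm M t.1).det ≠ 0 ∧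
      (ht t.1 : ℝ) ^ l 0 * (ht t.2 : ℝ) ^ l 1 ≤ B} := by
    rintro t ⟨a1, a2, ⟨a3, a4, -⟩, a6⟩
    refine ⟨a1, a2, a3, a4, ?_⟩
    have e1 : (ht t.1 : ℝ) ^ l 0 = (ht t.1 : ℝ) ^ 2 := by
      have : l 0 = ((2 : ℕ) : ℝ) := by
        show (2 : ℝ) = _
        norm_num
      rw [this]
      exact Real.rpow_natCast _ _
    have e2 : (ht t.2 : ℝ) ^ l 1 = (ht t.2 : ℝ) := Real.rpow_one _
    rw [e1, e2]
    exact a6
  exact_mod_cast Set.ncard_le_ncard hsub (hC B hB).1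

end Pool.Agent.R38.DB
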